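import Pool.Agent.Q111.ZI.Pair

/-!
Finitely supported cycles and cocycles on a covering, with coefficients in a tempered
representation, are orthogonal if the homology with coefficients in `C*_r(G)` vanishes.
-/

set_option autoImplicit false
set_option linter.unusedSectionVars false

open scoped Matrix ENNReal

namespace Pool.Agent.Q111.ZI

open Pool.Agent.H919R4.ZS (FinRes RedC toRed L lregL lregL_apply L_single valR act coe_toRed)
open Pool.Agent.TH98.ZT
open Pool.Agent.H496R3.ZS (IsAmenable)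

noncomputable section

variable {G : Type} [Group G] {C : Subgroup G} {T T' : Finset G} {a b c : ℕ}

/-- evaluation at the identity, inner products -/
lemma hasSum_orbit_inner (F F' : G → Pool.Agent.TH98.ZT.L2 C)
    (hF : ∀ (c : C) (x : G), F (c * x) = transl c (F x))
    (hF' : ∀ (c : C) (x : G), F' (c * x) = transl c (F' x))
    (T : Finset G) (hT : ∀ t ∈ T, ∀ t' ∈ T, t * t'⁻¹ ∈ C → t = t')
    (hs : ∀ x, F x ≠ 0 → ∃ t ∈ T, x * t⁻¹ ∈ C) :
    HasSum (fun x => inner ℂ (F x 1) (F' x 1)) (∑ t ∈ T, inner ℂ (F t) (F' t)) := by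
  classical
  have h1 : ∀ t ∈ T, HasSum (fun y : G => if y * t⁻¹ ∈ C then inner ℂ (F y 1) (F' y 1) else 0)
      (inner ℂ (F t) (F' t)) := by
    intro t _
    have hinj : Function.Injective (fun x : C => ((x⁻¹ : C) : G) * t) := by
      intro x y hxy
      have := mul_right_cancel hxy
      exact inv_injective (Subtype.ext this)
    rw [← hinj.hasSum_iff]
    · have e1 : ((fun y : G => if y * t⁻¹ ∈ C then inner ℂ (F y 1) (F' y 1) else 0) ∘
          fun x : C => ((x⁻¹ : C) : G) * t) = fun x => inner ℂ (F t x) (F' t x) := by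
        funext x
        change (if ((x⁻¹ : C) : G) * t * t⁻¹ ∈ C then
          inner ℂ (F (((x⁻¹ : C) : G) * t) 1) (F' (((x⁻¹ : C) : G) * t) 1) else 0) = _
        rw [if_pos (by rw [mul_inv_cancel_right]; exact (x⁻¹).2), hF, hF', transl_apply,
          transl_apply, inv_inv, mul_one]
      rw [e1]
      exact lp.hasSum_inner (F t) (F' t)
    · intro y hy
      rw [if_neg]
      intro hC
      apply hy
      refine ⟨⟨y * t⁻¹, hC⟩⁻¹, ?_⟩
      change (((⟨y * t⁻¹, hC⟩⁻¹ : C)⁻¹ : C) : G) * t = y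
      rw [inv_inv]
      change y * t⁻¹ * t = y
      rw [inv_mul_cancel_right]
  have h2 := hasSum_sum h1
  have e2 : (fun x => inner ℂ (F x 1) (F' x 1)) =
      fun y => ∑ t ∈ T, (if y * t⁻¹ ∈ C then inner ℂ (F y 1) (F' y 1) else 0) := by
    funext y
    by_cases hy : F y = 0
    · rw [hy]
      rw [Finset.sum_eq_zero]
      · simp
      · intro t _
        split_ifs <;> simp
    · obtain ⟨t, ht, htC⟩ := hs y hy
      rw [Finset.sum_eq_single t]
      · rw [if_pos htC]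
      · intro t' ht' hne
        rw [if_neg]
        intro hC
        apply hne
        refine hT t' ht' t ht ?_
        have : t' * t⁻¹ = (y * t'⁻¹)⁻¹ * (y * t⁻¹) := by group
        rw [this]
        exact C.mul_mem (C.inv_mem hC) htC
      · intro h; exact absurd ht h
  rw [e2]
  exact h2

/-- the involution of `ℤ[G]` -/
def sta (x : MonoidAlgebra ℤ G) : MonoidAlgebra ℤ G :=
  MonoidAlgebra.ofCoeff (Finsupp.equivMapDomain (Equiv.inv G) x.coeff)

lemma sum_sta {W : Type} [AddCommGroup W] (x : MonoidAlgebra ℤ G) (f : G → W) :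
    ∑ g ∈ (sta x).coeff.support, (sta x).coeff g • f g⁻¹ =
      ∑ g ∈ x.coeff.support, x.coeff g • f g := by
  have h1 : (sta x).coeff.support = x.coeff.support.map (Equiv.inv G).toEmbedding := rfl
  rw [h1, Finset.sum_map]
  refine Finset.sum_congr rfl fun g _ => ?_
  change x.coeff ((Equiv.inv G).symm ((Equiv.inv G) g)) • f ((Equiv.inv G) g)⁻¹ = _
  rw [Equiv.symm_apply_apply]
  change x.coeff g • f (g⁻¹)⁻¹ = _
  rw [inv_inv]

/-- two families, the first differential on the first family -/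
def blk1 (D : Matrix (Fin a) (Fin b) (MonoidAlgebra ℤ G)) :
    Matrix (Fin (a + a)) (Fin b) (MonoidAlgebra ℤ G) :=
  fun i k => Fin.addCases (motive := fun _ => MonoidAlgebra ℤ G) (fun j => D j k) (fun _ => 0) i

/-- two families, the adjoint of the second differential on the second family -/
def blk2 (D' : Matrix (Fin c) (Fin a) (MonoidAlgebra ℤ G)) :
    Matrix (Fin (a + a)) (Fin c) (MonoidAlgebra ℤ G) :=
  fun i l => Fin.addCases (motive := fun _ => MonoidAlgebra ℤ G) (fun _ => 0)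
    (fun j => sta (D' l j)) i

lemma bd_blk1 {W : Type} [AddCommGroup W] (D : Matrix (Fin a) (Fin b) (MonoidAlgebra ℤ G))
    (f : Fin (a + a) → G → W) : bd (blk1 D) f = bd D (fun j => f (Fin.castAdd a j)) := by
  funext k x
  rw [bd, bd, Fin.sum_univ_add]
  have h2 : ∑ i : Fin a, ∑ g ∈ (blk1 D (Fin.natAdd a i) k).coeff.support,
      (blk1 D (Fin.natAdd a i) k).coeff g • f (Fin.natAdd a i) (x * g⁻¹) = 0 := by
    refine Finset.sum_eq_zero fun i _ => ?_
    have : blk1 D (Fin.natAdd a i) k = 0 := by rw [blk1, Fin.addCases_right]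
    rw [this]
    simp
  rw [h2, add_zero]
  refine Finset.sum_congr rfl fun j _ => ?_
  have : blk1 D (Fin.castAdd a j) k = D j k := by rw [blk1, Fin.addCases_left]
  rw [this]

lemma bd_blk2 {W : Type} [AddCommGroup W] (D' : Matrix (Fin c) (Fin a) (MonoidAlgebra ℤ G))
    (f : Fin (a + a) → G → W) : bd (blk2 D') f = cobd D' (fun j => f (Fin.natAdd a j)) := by
  funext k x
  rw [bd, cobd, Fin.sum_univ_add]
  have h2 : ∑ i : Fin a, ∑ g ∈ (blk2 D' (Fin.castAdd a i) k).coeff.support,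
      (blk2 D' (Fin.castAdd a i) k).coeff g • f (Fin.castAdd a i) (x * g⁻¹) = 0 := by
    refine Finset.sum_eq_zero fun i _ => ?_
    have : blk2 D' (Fin.castAdd a i) k = 0 := by rw [blk2, Fin.addCases_left]
    rw [this]
    simp
  rw [h2, zero_add]
  refine Finset.sum_congr rfl fun j _ => ?_
  have : blk2 D' (Fin.natAdd a j) k = sta (D' k j) := by rw [blk2, Fin.addCases_right]
  rw [this]
  exact sum_sta (D' k j) (fun g => f (Fin.natAdd a j) (x * g))

/-- the pairing of the two families -/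
def PP (C : Subgroup G) (T : Finset G) (a : ℕ) :
    ((Fin (a + a) × T) × (Fin (a + a) × T) × C → ℂ) →L[ℂ] ℂ :=
  ∑ j : Fin a, ∑ t : T,
    ContinuousLinearMap.proj ((Fin.castAdd a j, t), (Fin.natAdd a j, t), (1 : C))

lemma PP_ker {W : Type} [NormedAddCommGroup W] [InnerProductSpace ℂ W] (ρ : C →* (W ≃ₗᵢ[ℂ] W))
    (x : Fin (a + a) × T → W) :
    PP C T a (ker ρ x) =
      ∑ j : Fin a, ∑ t : T, inner ℂ (x (Fin.castAdd a j, t)) (x (Fin.natAdd a j, t)) := by
  rw [PP, sum_apply]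
  refine Finset.sum_congr rfl fun j _ => ?_
  rw [sum_apply]
  refine Finset.sum_congr rfl fun t _ => ?_
  change inner ℂ (ρ 1 (x (Fin.castAdd a j, t))) (x (Fin.natAdd a j, t)) = _
  rw [map_one]
  rfl

lemma bd_eval {D : Matrix (Fin a) (Fin b) (MonoidAlgebra ℤ G)}
    (F : Fin a → G → Pool.Agent.TH98.ZT.L2 C) (k : Fin b) (y : G) :
    bd D (fun j y => F j y 1) k y = bd D F k y 1 := by
  rw [bd, bd, lp.coeFn_sum, Finset.sum_apply]
  refine Finset.sum_congr rfl fun j _ => ?_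
  rw [lp.coeFn_sum, Finset.sum_apply]
  refine Finset.sum_congr rfl fun g _ => ?_
  rfl

lemma cobd_eval {D : Matrix (Fin b) (Fin a) (MonoidAlgebra ℤ G)}
    (F : Fin a → G → Pool.Agent.TH98.ZT.L2 C) (k : Fin b) (y : G) :
    cobd D (fun j y => F j y 1) k y = cobd D F k y 1 := by
  rw [cobd, cobd, lp.coeFn_sum, Finset.sum_apply]
  refine Finset.sum_congr rfl fun j _ => ?_
  rw [lp.coeFn_sum, Finset.sum_apply]
  refine Finset.sum_congr rfl fun g _ => ?_
  rfl

/-- the inequality for the regular representation -/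
lemma reg_pair {T1 T2 : Finset G} (D : Matrix (Fin a) (Fin b) (MonoidAlgebra ℤ G))
    (D' : Matrix (Fin c) (Fin a) (MonoidAlgebra ℤ G)) {K : ℝ}
    (hK : ∀ (w u : Fin a → G → ℂ) (α β : Fin a → ℝ)
      (γ : Fin b → ℝ) (δ : Fin c → ℝ) (p : Fin a → ℂ),
      (∀ j, HasSum (fun x => ‖w j x‖ ^ 2) (α j)) → (∀ j, HasSum (fun x => ‖u j x‖ ^ 2) (β j)) →
      (∀ j, HasSum (fun x => ‖bd D w j x‖ ^ 2) (γ j)) →
      (∀ j, HasSum (fun x => ‖cobd D' u j x‖ ^ 2) (δ j)) →
      (∀ j, HasSum (fun x => inner ℂ (w j x) (u j x)) (p j)) →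
      ∀ ε : ℝ, 0 < ε → ‖∑ j, p j‖ ≤ ε⁻¹ * (∑ j, γ j + ∑ j, δ j) +
        ε * (K * (∑ j, α j + ∑ j, β j)))
    (hT : ∀ t ∈ T, ∀ t' ∈ T, t * t'⁻¹ ∈ C → t = t')
    (hT1 : ∀ t ∈ T1, ∀ t' ∈ T1, t * t'⁻¹ ∈ C → t = t')
    (hT2 : ∀ t ∈ T2, ∀ t' ∈ T2, t * t'⁻¹ ∈ C → t = t')
    (hTT1 : ∀ f : Fin (a + a) → G → Pool.Agent.TH98.ZT.L2 C,
        (∀ (j : Fin (a + a)) (x : G), f j x ≠ 0 → ∃ t ∈ T, x * t⁻¹ ∈ C) →
        ∀ (k : Fin b) (x : G), bd (blk1 D) f k x ≠ 0 → ∃ t ∈ T1, x * t⁻¹ ∈ C)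
    (hTT2 : ∀ f : Fin (a + a) → G → Pool.Agent.TH98.ZT.L2 C,
        (∀ (j : Fin (a + a)) (x : G), f j x ≠ 0 → ∃ t ∈ T, x * t⁻¹ ∈ C) →
        ∀ (k : Fin c) (x : G), bd (blk2 D') f k x ≠ 0 → ∃ t ∈ T2, x * t⁻¹ ∈ C)
    (x : Fin (a + a) × T → Pool.Agent.TH98.ZT.L2 C) {ε : ℝ} (hε : 0 < ε) :
    (PP C T a (ker reg x)).re ≤ ε⁻¹ * ((BB C T T1 (blk1 D) (ker reg x)).re +
      (BB C T T2 (blk2 D') (ker reg x)).re) + ε * (K * (AA C T (a + a) (ker reg x)).re) := by
  rw [AA_ker, BB_ker, BB_ker, PP_ker, Complex.ofReal_re, Complex.ofReal_re, Complex.ofReal_re]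
  have hsup : ∀ (j : Fin (a + a)) (y : G), ext reg x j y ≠ 0 → ∃ t ∈ T, y * t⁻¹ ∈ C :=
    fun j y hy => ext_supp reg x j y hy
  have h1 := hK (fun j y => ext reg x (Fin.castAdd a j) y 1)
    (fun j y => ext reg x (Fin.natAdd a j) y 1)
    (fun j => ∑ t ∈ T, ‖ext reg x (Fin.castAdd a j) t‖ ^ 2)
    (fun j => ∑ t ∈ T, ‖ext reg x (Fin.natAdd a j) t‖ ^ 2)
    (fun k => ∑ y ∈ T1, ‖bd (blk1 D) (ext reg x) k y‖ ^ 2)
    (fun k => ∑ y ∈ T2, ‖bd (blk2 D') (ext reg x) k y‖ ^ 2)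
    (fun j => ∑ t ∈ T, inner ℂ (ext reg x (Fin.castAdd a j) t) (ext reg x (Fin.natAdd a j) t))
    (fun j => hasSum_orbit (ext reg x (Fin.castAdd a j)) (fun c y => ext_equi reg x _ c y) T hT
      (fun y hy => hsup _ y hy))
    (fun j => hasSum_orbit (ext reg x (Fin.natAdd a j)) (fun c y => ext_equi reg x _ c y) T hT
      (fun y hy => hsup _ y hy))
    (fun k => by
      have h2 := hasSum_orbit (bd (blk1 D) (ext reg x) k)
        (fun c y => bd_ext_equi reg (blk1 D) (ext reg x) (fun j c y => ext_equi reg x j c y) k c y)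
        T1 hT1 (hTT1 (ext reg x) hsup k)
      have e : (fun y => ‖bd D (fun j y => ext reg x (Fin.castAdd a j) y 1) k y‖ ^ 2) =
          fun y => ‖bd (blk1 D) (ext reg x) k y 1‖ ^ 2 := by
        funext y
        rw [bd_blk1, ← bd_eval]
      rw [e]
      exact h2)
    (fun k => by
      have h2 := hasSum_orbit (bd (blk2 D') (ext reg x) k)
        (fun c y => bd_ext_equi reg (blk2 D') (ext reg x) (fun j c y => ext_equi reg x j c y) k c y)
        T2 hT2 (hTT2 (ext reg x) hsup k)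
      have e : (fun y => ‖cobd D' (fun j y => ext reg x (Fin.natAdd a j) y 1) k y‖ ^ 2) =
          fun y => ‖bd (blk2 D') (ext reg x) k y 1‖ ^ 2 := by
        funext y
        rw [bd_blk2, ← cobd_eval]
      rw [e]
      exact h2)
    (fun j => hasSum_orbit_inner (ext reg x (Fin.castAdd a j)) (ext reg x (Fin.natAdd a j))
      (fun c y => ext_equi reg x _ c y) (fun c y => ext_equi reg x _ c y) T hT
      (fun y hy => hsup _ y hy)) ε hε
  have h3 : ∀ j : Fin (a + a), ∑ t : T, ‖x (j, t)‖ ^ 2 = ∑ t ∈ T, ‖ext reg x j t‖ ^ 2 := by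
    intro j
    rw [← Finset.sum_coe_sort T]
    refine Finset.sum_congr rfl fun t _ => ?_
    rw [ext_at reg hT x j t]
  have h4 : ∑ j : Fin a, ∑ t : T, inner ℂ (x (Fin.castAdd a j, t)) (x (Fin.natAdd a j, t)) =
      ∑ j : Fin a, ∑ t ∈ T, inner ℂ (ext reg x (Fin.castAdd a j) t)
        (ext reg x (Fin.natAdd a j) t) := by
    refine Finset.sum_congr rfl fun j _ => ?_
    rw [← Finset.sum_coe_sort T]
    refine Finset.sum_congr rfl fun t _ => ?_
    rw [ext_at reg hT x _ t, ext_at reg hT x _ t]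
  have h5 : ∑ j : Fin (a + a), ∑ t : T, ‖x (j, t)‖ ^ 2 =
      ∑ j : Fin a, ∑ t ∈ T, ‖ext reg x (Fin.castAdd a j) t‖ ^ 2 +
      ∑ j : Fin a, ∑ t ∈ T, ‖ext reg x (Fin.natAdd a j) t‖ ^ 2 := by
    rw [Fin.sum_univ_add]
    simp only [h3]
  rw [h4, h5]
  exact (Complex.re_le_norm _).trans h1

/-- cycles and cocycles are orthogonal: the real part -/
lemma orth_re (D : Matrix (Fin a) (Fin b) (MonoidAlgebra ℤ G))
    (D' : Matrix (Fin c) (Fin a) (MonoidAlgebra ℤ G))
    (s' : Matrix (Fin b) (Fin a) (RedC G)) (s : Matrix (Fin a) (Fin c) (RedC G))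
    (hs : D.map (toRed G) * s' + s * D'.map (toRed G) = 1)
    {V : Type} [NormedAddCommGroup V] [InnerProductSpace ℂ V] (π : URep C V)
    (hπ : Tempered π) (f u : Fin a → G → V)
    (hf : ∀ (j : Fin a) (c : C) (x : G), f j (c * x) = π.app c (f j x))
    (hu : ∀ (j : Fin a) (c : C) (x : G), u j (c * x) = π.app c (u j x))
    (hT : ∀ t ∈ T, ∀ t' ∈ T, t * t'⁻¹ ∈ C → t = t')
    (hfT : ∀ (j : Fin a) (x : G), f j x ≠ 0 → ∃ t ∈ T, x * t⁻¹ ∈ C)
    (huT : ∀ (j : Fin a) (x : G), u j x ≠ 0 → ∃ t ∈ T, x * t⁻¹ ∈ C)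
    (hdf : bd D f = 0) (hdu : cobd D' u = 0) :
    (∑ j, ∑ t ∈ T, inner ℂ (f j t) (u j t)).re ≤ 0 := by
  obtain ⟨K, hK0, hK⟩ := pair_bound D D' s' s hs
  obtain ⟨T1, hT1, hTT1⟩ := exists_reps_bd C T (blk1 D)
  obtain ⟨T2, hT2, hTT2⟩ := exists_reps_bd C T (blk2 D')
  set F : Fin (a + a) → G → V :=
    fun i => Fin.addCases (motive := fun _ => G → V) f u i with hF
  have F1 : ∀ j, F (Fin.castAdd a j) = f j := fun j => by rw [hF]; exact Fin.addCases_left _
  have F2 : ∀ j, F (Fin.natAdd a j) = u j := fun j => by rw [hF]; exact Fin.addCases_right _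
  have hFe : ∀ (j : Fin (a + a)) (c : C) (x : G), F j (c * x) = π.hom c (F j x) := by
    intro j
    refine Fin.addCases (fun j => ?_) (fun j => ?_) j
    · rw [F1]; exact hf j
    · rw [F2]; exact hu j
  have hFs : ∀ (j : Fin (a + a)) (x : G), F j x ≠ 0 → ∃ t ∈ T, x * t⁻¹ ∈ C := by
    intro j
    refine Fin.addCases (fun j => ?_) (fun j => ?_) j
    · rw [F1]; exact hfT j
    · rw [F2]; exact huT j
  have hFx := eq_ext π.hom hT F hFe hFs
  set x : Fin (a + a) × T → V := fun p => F p.1 p.2 with hx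
  have hcl : ker π.hom x ∈ closure {κ : (Fin (a + a) × T) × (Fin (a + a) × T) × C → ℂ |
      ∃ (N : ℕ) (w : Fin (a + a) × T → Fin N → Pool.Agent.TH98.ZT.L2 C), κ = regCoef w} :=
    hπ (Fin (a + a) × T) x
  have main : ∀ ε : ℝ, 0 < ε → (∑ j, ∑ t ∈ T, inner ℂ (f j t) (u j t)).re ≤
      ε * (K * ∑ j : Fin (a + a), ∑ t : T, ‖x (j, t)‖ ^ 2) := by
    intro ε hε
    have h2 : IsClosed {κ : (Fin (a + a) × T) × (Fin (a + a) × T) × C → ℂ |
        (PP C T a κ).re ≤ ε⁻¹ * ((BB C T T1 (blk1 D) κ).re +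
          (BB C T T2 (blk2 D') κ).re) + ε * (K * (AA C T (a + a) κ).re)} := by
      refine isClosed_le ?_ ?_
      · exact Complex.continuous_re.comp (PP C T a).continuous
      · refine (continuous_const.mul ?_).add (continuous_const.mul (continuous_const.mul ?_))
        · exact (Complex.continuous_re.comp (BB C T T1 (blk1 D)).continuous).add
            (Complex.continuous_re.comp (BB C T T2 (blk2 D')).continuous)
        · exact Complex.continuous_re.comp (AA C T (a + a)).continuous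
    have h3 : ker π.hom x ∈ {κ : (Fin (a + a) × T) × (Fin (a + a) × T) × C → ℂ |
        (PP C T a κ).re ≤ ε⁻¹ * ((BB C T T1 (blk1 D) κ).re +
          (BB C T T2 (blk2 D') κ).re) + ε * (K * (AA C T (a + a) κ).re)} := by
      refine closure_minimal ?_ h2 hcl
      rintro _ ⟨N, w, rfl⟩
      have e1 : regCoef w = ∑ i, ker reg (fun q => w q i) := by
        funext p
        rw [Finset.sum_apply]
        rfl
      change (PP C T a _).re ≤ ε⁻¹ * ((BB C T T1 (blk1 D) _).re +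
          (BB C T T2 (blk2 D') _).re) + ε * (K * (AA C T (a + a) _).re)
      rw [e1, map_sum, map_sum, map_sum, map_sum, Complex.re_sum, Complex.re_sum, Complex.re_sum,
        Complex.re_sum, ← Finset.sum_add_distrib, Finset.mul_sum, Finset.mul_sum, Finset.mul_sum,
        ← Finset.sum_add_distrib]
      refine Finset.sum_le_sum fun i _ => ?_
      exact reg_pair D D' hK hT hT1 hT2 (fun f hf => hTT1 f hf) (fun f hf => hTT2 f hf)
        (fun q => w q i) hε
    change (PP C T a (ker π.hom x)).re ≤ ε⁻¹ * ((BB C T T1 (blk1 D) (ker π.hom x)).re +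
          (BB C T T2 (blk2 D') (ker π.hom x)).re) + ε * (K * (AA C T (a + a) (ker π.hom x)).re)
      at h3
    rw [AA_ker, BB_ker, BB_ker, PP_ker, Complex.ofReal_re, Complex.ofReal_re, Complex.ofReal_re,
      ← hFx, bd_blk1, bd_blk2] at h3
    simp only [F1, F2] at h3
    have e1 : bd D (fun j => f j) = 0 := hdf
    have e2 : cobd D' (fun j => u j) = 0 := hdu
    rw [e1, e2] at h3
    have e3 : ∑ j : Fin a, ∑ t : T, inner ℂ (x (Fin.castAdd a j, t)) (x (Fin.natAdd a j, t)) =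
        ∑ j, ∑ t ∈ T, inner ℂ (f j t) (u j t) := by
      refine Finset.sum_congr rfl fun j _ => ?_
      rw [← Finset.sum_coe_sort T]
      refine Finset.sum_congr rfl fun t _ => ?_
      rw [hx]
      simp only [F1, F2]
    rw [e3] at h3
    refine h3.trans ?_
    simp
  by_contra hcon
  push Not at hcon
  set P := (∑ j, ∑ t ∈ T, inner ℂ (f j t) (u j t)).re
  set A := K * ∑ j : Fin (a + a), ∑ t : T, ‖x (j, t)‖ ^ 2 with hA
  have hA0 : 0 ≤ A := mul_nonneg hK0 (Finset.sum_nonneg fun _ _ =>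
    Finset.sum_nonneg fun _ _ => by positivity)
  have h1 := main (P / (2 * (A + 1))) (by positivity)
  have h2 : P / (2 * (A + 1)) * A < P := by
    rw [div_mul_eq_mul_div, div_lt_iff₀ (by positivity)]
    nlinarith
  linarith

/-- cycles and cocycles are orthogonal -/
theorem orth (D : Matrix (Fin a) (Fin b) (MonoidAlgebra ℤ G))
    (D' : Matrix (Fin c) (Fin a) (MonoidAlgebra ℤ G))
    (s' : Matrix (Fin b) (Fin a) (RedC G)) (s : Matrix (Fin a) (Fin c) (RedC G))
    (hs : D.map (toRed G) * s' + s * D'.map (toRed G) = 1)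
    {V : Type} [NormedAddCommGroup V] [InnerProductSpace ℂ V] (π : URep C V)
    (hπ : Tempered π) (f u : Fin a → G → V)
    (hf : ∀ (j : Fin a) (c : C) (x : G), f j (c * x) = π.app c (f j x))
    (hu : ∀ (j : Fin a) (c : C) (x : G), u j (c * x) = π.app c (u j x))
    (hT : ∀ t ∈ T, ∀ t' ∈ T, t * t'⁻¹ ∈ C → t = t')
    (hfT : ∀ (j : Fin a) (x : G), f j x ≠ 0 → ∃ t ∈ T, x * t⁻¹ ∈ C)
    (huT : ∀ (j : Fin a) (x : G), u j x ≠ 0 → ∃ t ∈ T, x * t⁻¹ ∈ C)
    (hdf : bd D f = 0) (hdu : cobd D' u = 0) :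
    ∑ j, ∑ t ∈ T, inner ℂ (f j t) (u j t) = 0 := by
  set p := ∑ j, ∑ t ∈ T, inner ℂ (f j t) (u j t) with hp
  have h1 := orth_re D D' s' s hs π hπ f (fun j x => (starRingEnd ℂ p) • u j x) hf
    (fun j c x => by
      change (starRingEnd ℂ p) • u j (c * x) = π.hom c ((starRingEnd ℂ p) • u j x)
      rw [map_smul, hu]
      rfl) hT hfT
    (fun j x hx => huT j x (fun h => hx (by
      change (starRingEnd ℂ p) • u j x = 0
      rw [h, smul_zero]))) hdf (by
      funext j x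
      have h2 : cobd D' u j x = 0 := congrFun (congrFun hdu j) x
      change cobd D' (fun j x => (starRingEnd ℂ p) • u j x) j x = 0
      rw [cobd] at h2 ⊢
      have h3 : ∑ k, ∑ g ∈ (D' j k).coeff.support,
          (D' j k).coeff g • ((starRingEnd ℂ p) • u k (x * g)) =
          (starRingEnd ℂ p) • ∑ k, ∑ g ∈ (D' j k).coeff.support,
          (D' j k).coeff g • u k (x * g) := by
        rw [Finset.smul_sum]
        refine Finset.sum_congr rfl fun k _ => ?_
        rw [Finset.smul_sum]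
        refine Finset.sum_congr rfl fun g _ => ?_
        rw [smul_comm]
      rw [h3, h2, smul_zero])
  have h2 : ∑ j, ∑ t ∈ T, inner ℂ (f j t) ((starRingEnd ℂ p) • u j t) =
      ((‖p‖ ^ 2 : ℝ) : ℂ) := by
    have h3 : ∑ j, ∑ t ∈ T, inner ℂ (f j t) ((starRingEnd ℂ p) • u j t) =
        (starRingEnd ℂ p) * p := by
      rw [hp, Finset.mul_sum]
      refine Finset.sum_congr rfl fun j _ => ?_
      rw [Finset.mul_sum]
      refine Finset.sum_congr rfl fun t _ => ?_
      rw [inner_smul_right]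
    rw [h3, mul_comm, Complex.mul_conj, Complex.normSq_eq_norm_sq]
  rw [h2, Complex.ofReal_re] at h1
  have h3 : ‖p‖ = 0 := by
    have := sq_nonneg ‖p‖
    exact pow_eq_zero_iff (two_ne_zero) |>.1 (le_antisymm h1 this)
  exact norm_eq_zero.1 h3

/-- all degrees -/
theorem pairing (X : FinRes G) (k : ℕ) (hk : ∀ i ≤ k, Subsingleton (X.homology (toRed G) i))
    {V : Type} [NormedAddCommGroup V] [InnerProductSpace ℂ V] (π : URep C V)
    (hπ : IsAmenable C ∨ Tempered π) (f u : Fin (X.n k) → G → V)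
    (hf : f ∈ cyc X π k) (hu : IsChn π u) (hdu : cobd (X.d k) u = 0)
    (hT : ∀ t ∈ T, ∀ t' ∈ T, t * t'⁻¹ ∈ C → t = t')
    (hfT : ∀ (j : Fin (X.n k)) (x : G), f j x ≠ 0 → ∃ t ∈ T, x * t⁻¹ ∈ C)
    (huT : ∀ (j : Fin (X.n k)) (x : G), u j x ≠ 0 → ∃ t ∈ T, x * t⁻¹ ∈ C) :
    ∑ j, ∑ t ∈ T, inner ℂ (f j t) (u j t) = 0 := by
  have hT' : Tempered π := by
    rcases hπ with hC | hT
    · exact tempered_of_amenable hC π
    · exact hT
  obtain ⟨s, -, hs⟩ := Pool.Agent.TH254.ZT.exists_contr X (toRed G) k hk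
  cases k with
  | zero =>
    have hs1 : s * (X.d 0).map (toRed G) = 1 := hs
    refine orth (b := 0) (0 : Matrix (Fin (X.n 0)) (Fin 0) (MonoidAlgebra ℤ G)) (X.d 0)
      (0 : Matrix (Fin 0) (Fin (X.n 0)) (RedC G)) s ?_ π hT' f u hf.1 hu.1 hT hfT huT ?_ hdu
    · have h0 : ((0 : Matrix (Fin (X.n 0)) (Fin 0) (MonoidAlgebra ℤ G)).map (toRed G) *
          (0 : Matrix (Fin 0) (Fin (X.n 0)) (RedC G))) = 0 := by
        refine funext fun i => funext fun j => ?_
        rw [Matrix.mul_apply, Finset.univ_eq_empty, Finset.sum_empty]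
        rfl
      rw [h0, zero_add, hs1]
    · funext i
      exact i.elim0
  | succ k =>
    obtain ⟨s', hs⟩ := hs
    exact orth (X.d k) (X.d (k + 1)) s' s hs π hT' f u hf.1.1 hu.1 hT hfT huT hf.2 hdu

end

end Pool.Agent.Q111.ZI
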