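import Pool.Agent.TH98.ZT.Amen

/-!
The pairing of finitely supported cycles and cocycles on a covering, with coefficients in a
tempered unitary representation.
-/

set_option autoImplicit false
set_option linter.unusedSectionVars false

open scoped Matrix ENNReal

namespace Pool.Agent.Q111.ZI

open Pool.Agent.H919R4.ZS (FinRes RedC toRed L lregL lregL_apply L_single valR act coe_toRed)
open Pool.Agent.TH98.ZT

noncomputable section

variable {G : Type} [Group G]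

/-- The coboundary, adjoint to `bd D`: `(δ f) j x = ∑_k ∑_g (D j k)_g f k (x g)`. -/
def cobd {W : Type} [AddCommGroup W] {a b : ℕ} (D : Matrix (Fin a) (Fin b) (MonoidAlgebra ℤ G))
    (f : Fin b → G → W) : Fin a → G → W :=
  fun j x => ∑ k, ∑ g ∈ (D j k).coeff.support, (D j k).coeff g • f k (x * g)

/-! ### operators -/

lemma inner_act {a b : ℕ} (D : Matrix (Fin a) (Fin b) (L2 G →L[ℂ] L2 G)) (w : Fin a → L2 G)
    (v : Fin b → L2 G) :
    ∑ j, inner ℂ (w j) (act D v j) = ∑ k, inner ℂ (coact D w k) (v k) := by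
  calc ∑ j, inner ℂ (w j) (act D v j) = ∑ j, ∑ k, inner ℂ (w j) (D j k (v k)) := by
          refine Finset.sum_congr rfl fun j _ => ?_
          change inner ℂ (w j) (∑ k, D j k (v k)) = _
          rw [inner_sum]
    _ = ∑ k, ∑ j, inner ℂ (w j) (D j k (v k)) := Finset.sum_comm
    _ = ∑ k, inner ℂ (coact D w k) (v k) := by
          refine Finset.sum_congr rfl fun k _ => ?_
          rw [coact, sum_inner]
          refine Finset.sum_congr rfl fun j _ => ?_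
          rw [ContinuousLinearMap.adjoint_inner_left]

lemma act_bound {a b : ℕ} (s : Matrix (Fin b) (Fin a) (L2 G →L[ℂ] L2 G)) (u : Fin a → L2 G) :
    ∑ k, ‖act s u k‖ ^ 2 ≤ (∑ k, ∑ l, ‖s k l‖ ^ 2) * ∑ j, ‖u j‖ ^ 2 := by
  rw [Finset.sum_mul]
  refine Finset.sum_le_sum fun k _ => ?_
  have e1 : ‖act s u k‖ ≤ ∑ l, ‖s k l‖ * ‖u l‖ :=
    (norm_sum_le _ _).trans (Finset.sum_le_sum fun l _ => ContinuousLinearMap.le_opNorm _ _)
  refine (pow_le_pow_left₀ (norm_nonneg _) e1 2).trans ?_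
  exact Finset.sum_mul_sq_le_sq_mul_sq _ _ _

lemma coact_bound {a b : ℕ} (s : Matrix (Fin a) (Fin b) (L2 G →L[ℂ] L2 G)) (u : Fin a → L2 G) :
    ∑ k, ‖coact s u k‖ ^ 2 ≤ (∑ k, ∑ l, ‖s l k‖ ^ 2) * ∑ j, ‖u j‖ ^ 2 := by
  rw [Finset.sum_mul]
  refine Finset.sum_le_sum fun k _ => ?_
  have e1 : ‖coact s u k‖ ≤ ∑ l, ‖s l k‖ * ‖u l‖ := by
    refine (norm_sum_le _ _).trans (Finset.sum_le_sum fun l _ => ?_)
    refine (ContinuousLinearMap.le_opNorm _ _).trans ?_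
    rw [LinearIsometryEquiv.norm_map]
  refine (pow_le_pow_left₀ (norm_nonneg _) e1 2).trans ?_
  exact Finset.sum_mul_sq_le_sq_mul_sq _ _ _

lemma amgm {ι : Type} [Fintype ι] (p q : ι → L2 G) {ε : ℝ} (hε : 0 < ε) :
    ‖∑ k, inner ℂ (p k) (q k)‖ ≤ ε⁻¹ * ∑ k, ‖p k‖ ^ 2 + ε * ∑ k, ‖q k‖ ^ 2 := by
  refine (norm_sum_le _ _).trans ?_
  rw [Finset.mul_sum, Finset.mul_sum, ← Finset.sum_add_distrib]
  refine Finset.sum_le_sum fun k _ => (norm_inner_le_norm _ _).trans ?_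
  have h1 : 0 ≤ ε⁻¹ * (‖p k‖ - ε * ‖q k‖) ^ 2 := by positivity
  have h2 : ε⁻¹ * (‖p k‖ - ε * ‖q k‖) ^ 2 =
      ε⁻¹ * ‖p k‖ ^ 2 - 2 * (‖p k‖ * ‖q k‖) + ε * ‖q k‖ ^ 2 := by
    field_simp
    ring
  have h3 : 0 ≤ ‖p k‖ * ‖q k‖ := by positivity
  rw [h2] at h1
  linarith

/-- the inequality on vectors -/
lemma pair_aux {a b c : ℕ} (D : Matrix (Fin a) (Fin b) (L2 G →L[ℂ] L2 G))
    (s' : Matrix (Fin b) (Fin a) (L2 G →L[ℂ] L2 G)) (s : Matrix (Fin a) (Fin c) (L2 G →L[ℂ] L2 G))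
    (D' : Matrix (Fin c) (Fin a) (L2 G →L[ℂ] L2 G)) (h : D * s' + s * D' = 1)
    (w u : Fin a → L2 G) {ε : ℝ} (hε : 0 < ε) :
    ‖∑ j, inner ℂ (w j) (u j)‖ ≤ ε⁻¹ * (∑ k, ‖coact D w k‖ ^ 2 + ∑ l, ‖act D' u l‖ ^ 2) +
      ε * (((∑ k, ∑ l, ‖s' k l‖ ^ 2) + ∑ k, ∑ l, ‖s l k‖ ^ 2) *
        (∑ j, ‖w j‖ ^ 2 + ∑ j, ‖u j‖ ^ 2)) := by
  have h1 : u = act (D * s') u + act (s * D') u := by
    have e : act (D * s' + s * D') u = u := by rw [h, Pool.Agent.H919R4.ZS.act_one]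
    conv_lhs => rw [← e]
    funext j
    change ∑ k, (D * s' + s * D') j k (u k) = ∑ k, (D * s') j k (u k) + ∑ k, (s * D') j k (u k)
    rw [← Finset.sum_add_distrib]
    rfl
  have h2 : ∑ j, inner ℂ (w j) (u j) = ∑ k, inner ℂ (coact D w k) (act s' u k) +
      ∑ l, inner ℂ (coact s w l) (act D' u l) := by
    rw [← inner_act, ← inner_act, ← Finset.sum_add_distrib]
    refine Finset.sum_congr rfl fun j _ => ?_
    rw [← inner_add_right]
    congr 1
    conv_lhs => rw [h1]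
    rw [Pool.Agent.H919R4.ZS.act_mul, Pool.Agent.H919R4.ZS.act_mul]
    rfl
  have h3 := amgm (coact D w) (act s' u) hε
  have h4 := amgm (coact s w) (act D' u) (inv_pos.2 hε)
  rw [inv_inv] at h4
  have h5 := act_bound s' u
  have h6 := coact_bound s w
  rw [h2]
  refine (norm_add_le _ _).trans ((add_le_add h3 h4).trans ?_)
  set A := ∑ k, ∑ l, ‖s' k l‖ ^ 2
  set B := ∑ k, ∑ l, ‖s l k‖ ^ 2
  set P := ∑ j, ‖w j‖ ^ 2
  set R := ∑ j, ‖u j‖ ^ 2
  have hA : 0 ≤ A := Finset.sum_nonneg fun _ _ => Finset.sum_nonneg fun _ _ => by positivity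
  have hB : 0 ≤ B := Finset.sum_nonneg fun _ _ => Finset.sum_nonneg fun _ _ => by positivity
  have hP : 0 ≤ P := Finset.sum_nonneg fun _ _ => by positivity
  have hR : 0 ≤ R := Finset.sum_nonneg fun _ _ => by positivity
  have h7 : ε * ∑ k, ‖act s' u k‖ ^ 2 ≤ ε * (A * R) := mul_le_mul_of_nonneg_left h5 hε.le
  have h8 : ε * ∑ k, ‖coact s w k‖ ^ 2 ≤ ε * (B * P) := mul_le_mul_of_nonneg_left h6 hε.le
  have h9 : ε * (A * R) + ε * (B * P) ≤ ε * ((A + B) * (P + R)) := by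
    have : (A + B) * (P + R) = A * R + B * P + (A * P + B * R) := by ring
    rw [← mul_add, this]
    refine mul_le_mul_of_nonneg_left ?_ hε.le
    have : 0 ≤ A * P + B * R := by positivity
    linarith
  rw [mul_add]
  linarith

/-- the inequality for square summable functions on `G` -/
theorem pair_bound {a b c : ℕ} (D : Matrix (Fin a) (Fin b) (MonoidAlgebra ℤ G))
    (D' : Matrix (Fin c) (Fin a) (MonoidAlgebra ℤ G))
    (s' : Matrix (Fin b) (Fin a) (RedC G)) (s : Matrix (Fin a) (Fin c) (RedC G))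
    (hs : D.map (toRed G) * s' + s * D'.map (toRed G) = 1) :
    ∃ K : ℝ, 0 ≤ K ∧ ∀ (w u : Fin a → G → ℂ) (α β : Fin a → ℝ)
      (γ : Fin b → ℝ) (δ : Fin c → ℝ) (p : Fin a → ℂ),
      (∀ j, HasSum (fun x => ‖w j x‖ ^ 2) (α j)) → (∀ j, HasSum (fun x => ‖u j x‖ ^ 2) (β j)) →
      (∀ j, HasSum (fun x => ‖bd D w j x‖ ^ 2) (γ j)) →
      (∀ j, HasSum (fun x => ‖cobd D' u j x‖ ^ 2) (δ j)) →
      (∀ j, HasSum (fun x => inner ℂ (w j x) (u j x)) (p j)) →
      ∀ ε : ℝ, 0 < ε → ‖∑ j, p j‖ ≤ ε⁻¹ * (∑ j, γ j + ∑ j, δ j) +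
        ε * (K * (∑ j, α j + ∑ j, β j)) := by
  have key : ∀ {m n : ℕ} (M : Matrix (Fin m) (Fin n) (MonoidAlgebra ℤ G)),
      (M.map (toRed G)).map (valR (G := G)) = M.map (L (G := G)) := by
    intro m n M
    refine funext fun j => funext fun k => ?_
    exact coe_toRed (M j k)
  have f0 : D.map (L (G := G)) * s'.map (valR (G := G)) +
      s.map (valR (G := G)) * D'.map (L (G := G)) = 1 := by
    rw [← key, ← key]
    exact Pool.Agent.H919R4.ZS.map_ident (valR (G := G)) _ _ _ _ hs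
  refine ⟨(∑ k, ∑ l, ‖(s'.map (valR (G := G))) k l‖ ^ 2) +
    ∑ k, ∑ l, ‖(s.map (valR (G := G))) l k‖ ^ 2, ?_, ?_⟩
  · exact add_nonneg (Finset.sum_nonneg fun _ _ => Finset.sum_nonneg fun _ _ => by positivity)
      (Finset.sum_nonneg fun _ _ => Finset.sum_nonneg fun _ _ => by positivity)
  · intro w u α β γ δ p hα hβ hγ hδ hp ε hε
    have hmem : ∀ (f : Fin a → G → ℂ) (α : Fin a → ℝ),
        (∀ j, HasSum (fun x => ‖f j x‖ ^ 2) (α j)) → ∀ j, Memℓp (fun x : G => f j x⁻¹) 2 := by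
      intro f α hα j
      have h1 : Summable fun x => ‖f j x⁻¹‖ ^ 2 :=
        (Equiv.inv G).summable_iff.2 (hα j).summable
      refine memℓp_gen ?_
      have h4 : (2 : ENNReal).toReal = ((2 : ℕ) : ℝ) := by norm_num
      simp only [h4, Real.rpow_natCast]
      exact h1
    obtain ⟨w', hw⟩ : ∃ w' : Fin a → L2 G, ∀ j x, w' j x = w j x⁻¹ :=
      ⟨fun j => ⟨fun x => w j x⁻¹, hmem w α hα j⟩, fun j x => rfl⟩
    obtain ⟨u', hu⟩ : ∃ u' : Fin a → L2 G, ∀ j x, u' j x = u j x⁻¹ :=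
      ⟨fun j => ⟨fun x => u j x⁻¹, hmem u β hβ j⟩, fun j x => rfl⟩
    have hn : ∀ (v : L2 G) (f : G → ℂ) (t : ℝ), (∀ x, v x = f x⁻¹) →
        HasSum (fun x => ‖f x‖ ^ 2) t → ‖v‖ ^ 2 = t := by
      intro v f t hv ht
      have e1 : (fun x => ‖v x‖ ^ 2) = (fun x => ‖f x‖ ^ 2) ∘ (Equiv.inv G) := by
        funext x
        rw [hv]
        rfl
      exact (hasSum_norm_sq v).unique (e1 ▸ (Equiv.inv G).hasSum_iff.2 ht)
    have h1 : ∀ j, ‖w' j‖ ^ 2 = α j := fun j => hn _ _ _ (hw j) (hα j)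
    have h2 : ∀ j, ‖u' j‖ ^ 2 = β j := fun j => hn _ _ _ (hu j) (hβ j)
    have h3 : ∀ j, ‖coact (D.map (L (G := G))) w' j‖ ^ 2 = γ j := by
      intro j
      refine hn _ (bd D w j) _ (fun x => ?_) (hγ j)
      rw [coact, lp.coeFn_sum, Finset.sum_apply, bd]
      refine Finset.sum_congr rfl fun l _ => ?_
      rw [Matrix.map_apply, adjoint_L_apply]
      refine Finset.sum_congr rfl fun g _ => ?_
      rw [hw, mul_inv_rev]
    have h4 : ∀ j, ‖act (D'.map (L (G := G))) u' j‖ ^ 2 = δ j := by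
      intro j
      refine hn _ (cobd D' u j) _ (fun x => ?_) (hδ j)
      change (∑ l, (D'.map (L (G := G))) j l (u' l) : L2 G) x = _
      rw [lp.coeFn_sum, Finset.sum_apply, cobd]
      refine Finset.sum_congr rfl fun l _ => ?_
      rw [Matrix.map_apply]
      have e1 : L (D' j l) = ∑ g ∈ (D' j l).coeff.support,
          ((D' j l).coeff g : ℂ) • lregL g := by
        conv_lhs => rw [← MonoidAlgebra.sum_coeff_single (D' j l)]
        rw [Finsupp.sum, map_sum]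
        refine Finset.sum_congr rfl fun g _ => ?_
        rw [L_single, Int.cast_smul_eq_zsmul]
      rw [e1, sum_apply, lp.coeFn_sum, Finset.sum_apply]
      refine Finset.sum_congr rfl fun g _ => ?_
      rw [smul_apply, lp.coeFn_smul, Pi.smul_apply, lregL_apply, hu, mul_inv_rev, inv_inv]
      simp
    have h5 : ∀ j, inner ℂ (w' j) (u' j) = p j := by
      intro j
      have e0 : HasSum (fun x => inner ℂ (w' j x) (u' j x)) (inner ℂ (w' j) (u' j)) :=
        lp.hasSum_inner (w' j) (u' j)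
      have e1 : (fun x => inner ℂ (w' j x) (u' j x)) =
          (fun x => inner ℂ (w j x) (u j x)) ∘ (Equiv.inv G) := by
        funext x
        rw [hw, hu]
        rfl
      exact e0.unique (e1 ▸ (Equiv.inv G).hasSum_iff.2 (hp j))
    have h6 := pair_aux _ _ _ _ f0 w' u' hε
    simp only [h1, h2, h3, h4, h5] at h6
    exact h6

end

end Pool.Agent.Q111.ZI
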